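import Pool.Agent.W758.AHC.Stm

/-! Part `S_LO4` of the project AHC (MP_da4a48_co): two independent fixed functionals. -/

set_option autoImplicit false

namespace Pool.Agent.W252.AHC

open Pool.Agent.W758.AHC

theorem lo4 : S_LO → S_BIN → S_LO4 := by
  intro hLO hBIN ι _ s v lam u e X hv hnot hX
  rcases X.eq_empty_or_nonempty with h0 | ⟨x0, hx0⟩
  · rw [h0]
    simp
  -- some value of `u` is nonzero
  have hut : ∃ t ∈ s, u t ≠ 0 := by
    by_contra hcon
    push Not at hcon
    apply hnot
    refine ⟨0, ?_, ?_⟩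
    · intro i hi
      rw [hcon i hi, zero_mul]
    · obtain ⟨h1, _, h3⟩ := hX x0 hx0
      rw [zero_mul, ← h3]
      exact Finset.sum_eq_zero fun i hi => hcon i (h1 hi)
  obtain ⟨t, hts, ht⟩ := hut
  have hvt : v t ≠ 0 := hv t hts
  set w : ι → ℚ := fun j => v j * u t - v t * u j with hw
  set S1 : Finset ι := s.filter (fun j => w j = 0) with hS1
  set S2 : Finset ι := s.filter (fun j => ¬ w j = 0) with hS2
  have hunion : S1 ∪ S2 = s := Finset.filter_union_filter_not_eq _ _
  have hdisj : Disjoint S1 S2 := Finset.disjoint_filter_filter_not _ _ _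
  have hcard : S1.card + S2.card = s.card := by
    rw [← Finset.card_union_of_disjoint hdisj, hunion]
  have h1ne : 1 ≤ S1.card := by
    apply Finset.card_pos.mpr
    refine ⟨t, Finset.mem_filter.mpr ⟨hts, ?_⟩⟩
    simp only [hw]
    ring
  have h2ne : 1 ≤ S2.card := by
    apply Finset.card_pos.mpr
    by_contra hcon
    rw [Finset.not_nonempty_iff_eq_empty] at hcon
    apply hnot
    have hall : ∀ i ∈ s, u i = u t / v t * v i := by
      intro i hi
      have h : w i = 0 := by
        by_contra h'
        have : i ∈ S2 := Finset.mem_filter.mpr ⟨hi, h'⟩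
        rw [hcon] at this
        simp at this
      simp only [hw] at h
      field_simp
      linarith
    refine ⟨u t / v t, hall, ?_⟩
    obtain ⟨h1, h2, h3⟩ := hX x0 hx0
    rw [← h3, ← h2, Finset.mul_sum]
    exact Finset.sum_congr rfl fun i hi => hall i (h1 hi)
  have hsplit : ∀ x ∈ X, ∀ g : ι → ℚ, ∑ i ∈ x, g i = ∑ i ∈ x ∩ S1, g i + ∑ i ∈ x ∩ S2, g i := by
    intro x hx g
    obtain ⟨h1, _, _⟩ := hX x hx
    have hxu : x = (x ∩ S1) ∪ (x ∩ S2) := by
      rw [← Finset.inter_union_distrib_left, hunion]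
      exact (Finset.inter_eq_left.mpr h1).symm
    have hxd : Disjoint (x ∩ S1) (x ∩ S2) :=
      Finset.disjoint_of_subset_left Finset.inter_subset_right
        (Finset.disjoint_of_subset_right Finset.inter_subset_right hdisj)
    conv_lhs => rw [hxu]
    exact Finset.sum_union hxd
  -- the image under intersection with `S2`
  have himg : (X.image (fun x => x ∩ S2)).card ≤ M0 S2.card := by
    apply hLO ι S2 w (u t * lam - v t * e)
    · intro i hi
      exact (Finset.mem_filter.mp hi).2
    · intro y hy
      obtain ⟨x, hx, rfl⟩ := Finset.mem_image.mp hy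
      refine ⟨Finset.inter_subset_right, ?_⟩
      obtain ⟨_, h2, h3⟩ := hX x hx
      have h4 := hsplit x hx w
      have h5 : ∑ i ∈ x ∩ S1, w i = 0 :=
        Finset.sum_eq_zero fun i hi => (Finset.mem_filter.mp (Finset.mem_inter.mp hi).2).2
      rw [h5, zero_add] at h4
      rw [← h4, ← h2, ← h3, Finset.mul_sum, Finset.mul_sum, ← Finset.sum_sub_distrib]
      apply Finset.sum_congr rfl
      intro i _
      simp only [hw]
      ring
  have hfib : ∀ y ∈ X.image (fun x => x ∩ S2),
      (X.filter (fun x => x ∩ S2 = y)).card ≤ M0 S1.card := by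
    intro y _
    have hinj : Set.InjOn (fun x : Finset ι => x ∩ S1)
        (X.filter (fun x => x ∩ S2 = y) : Finset (Finset ι)) := by
      intro a ha b hb hab
      rw [Finset.mem_coe, Finset.mem_filter] at ha hb
      have hab' : a ∩ S1 = b ∩ S1 := hab
      have e1 : a = (a ∩ S1) ∪ (a ∩ S2) := by
        rw [← Finset.inter_union_distrib_left, hunion]
        exact (Finset.inter_eq_left.mpr (hX a ha.1).1).symm
      have e2 : b = (b ∩ S1) ∪ (b ∩ S2) := by
        rw [← Finset.inter_union_distrib_left, hunion]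
        exact (Finset.inter_eq_left.mpr (hX b hb.1).1).symm
      rw [e1, e2, hab', ha.2, hb.2]
    rw [← Finset.card_image_of_injOn hinj]
    apply hLO ι S1 v (lam - ∑ i ∈ y, v i)
    · intro i hi
      exact hv i (Finset.mem_filter.mp hi).1
    · intro z hz
      obtain ⟨x, hx, rfl⟩ := Finset.mem_image.mp hz
      rw [Finset.mem_filter] at hx
      refine ⟨Finset.inter_subset_right, ?_⟩
      obtain ⟨_, h2, _⟩ := hX x hx.1
      have h4 := hsplit x hx.1 v
      rw [h2, hx.2] at h4
      linarith
  have hmul := Finset.card_le_mul_card_image X (M0 S1.card) hfib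
  have hbin := hBIN S1.card S2.card h1ne h2ne
  rw [hcard] at hbin
  calc 3 * X.card ≤ 3 * (M0 S1.card * (X.image (fun x => x ∩ S2)).card) :=
        Nat.mul_le_mul_left 3 hmul
    _ ≤ 3 * (M0 S1.card * M0 S2.card) :=
        Nat.mul_le_mul_left 3 (Nat.mul_le_mul_left _ himg)
    _ ≤ 2 * M0 s.card := hbin

end Pool.Agent.W252.AHC
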